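import Pool.Agent.H54.CF.Pk

/-!
# A product of two commutators is no proper 24-th power

Counting quasimorphisms (Brooks), with disjoint occurrences.
-/

set_option autoImplicit false

open scoped commutatorElement

namespace Pool.Agent.H54.CF

open FreeGroup

variable {κ : Type} [DecidableEq κ]

private theorem red_mid {L : List (κ × Bool)} (h : FreeGroup.IsReduced L)
    (u w v : List (κ × Bool)) (e : L = u ++ w ++ v) : FreeGroup.IsReduced w := by
  rw [FreeGroup.IsReduced] at h ⊢
  rw [e] at h
  exact (List.isChain_append.1 (List.isChain_append.1 h).1).2.1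

/-- the cancellation in a product of two elements -/
theorem mul_split (g h : FreeGroup κ) : ∃ u p v, g.toWord = u ++ p ∧
    h.toWord = invRev p ++ v ∧ (g * h).toWord = u ++ v := by
  -- induction on the word of `g`, from the right
  suffices H : ∀ L : List (κ × Bool), IsReduced L → ∀ M, IsReduced M →
      ∃ u p v, L = u ++ p ∧ M = invRev p ++ v ∧ IsReduced (u ++ v) by
    obtain ⟨u, p, v, h1, h2, h3⟩ := H g.toWord isReduced_toWord h.toWord isReduced_toWord
    refine ⟨u, p, v, h1, h2, ?_⟩
    have : g * h = mk (u ++ v) := by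
      rw [← mk_toWord (x := g), ← mk_toWord (x := h), h1, h2, ← mul_mk, ← mul_mk, ← mul_mk,
        ← inv_mk]
      group
    rw [this, toWord_mk, h3.reduce_eq]
  intro L
  induction L using List.reverseRecOn with
  | nil => exact fun _ M hM => ⟨[], [], M, rfl, by simp, by simpa using hM⟩
  | append_singleton L x ih =>
    intro hL M hM
    cases M with
    | nil => exact ⟨L ++ [x], [], [], by simp, by simp, by simpa using hL⟩
    | cons y M =>
      by_cases hxy : x.1 = y.1 ∧ x.2 = !y.2
      · obtain ⟨u, p, v, h1, h2, h3⟩ := ih (red_mid hL [] L [x] (by simp)) M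
          (red_mid hM [y] M [] (by simp))
        refine ⟨u, p ++ [x], v, by rw [h1, List.append_assoc], ?_, h3⟩
        rw [h2]
        obtain ⟨x1, x2⟩ := x
        obtain ⟨y1, y2⟩ := y
        simp only at hxy
        simp [invRev, hxy.1, hxy.2]
      · refine ⟨L ++ [x], [], y :: M, by simp, by simp, ?_⟩
        rw [FreeGroup.IsReduced, List.isChain_append]
        refine ⟨hL, hM, ?_⟩
        intro a ha b hb hab
        rw [Option.mem_def, List.getLast?_concat, Option.some.injEq] at ha
        rw [Option.mem_def, List.head?_cons, Option.some.injEq] at hb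
        subst ha hb
        by_contra hne
        apply hxy
        refine ⟨hab, ?_⟩
        have : x.2 ≠ y.2 := hne
        cases hx : x.2 <;> cases hy : y.2 <;> simp_all

section H

variable (c : List (κ × Bool))

/-- the counting quasimorphism -/
noncomputable def H (g : FreeGroup κ) : ℤ := (N c g.toWord : ℤ) - N c g⁻¹.toWord

theorem H_inv (g : FreeGroup κ) : H c g⁻¹ = - H c g := by
  simp [H]

variable {c}

theorem H_mul (hc : c ≠ []) (g h : FreeGroup κ) : |H c (g * h) - H c g - H c h| ≤ 3 := by
  obtain ⟨u, p, v, h1, h2, h3⟩ := mul_split g h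
  have e1 : g⁻¹.toWord = invRev p ++ invRev u := by rw [toWord_inv, h1, invRev_append]
  have e2 : h⁻¹.toWord = invRev v ++ p := by
    rw [toWord_inv, h2, invRev_append, invRev_invRev]
  have e3 : (g * h)⁻¹.toWord = invRev v ++ invRev u := by rw [toWord_inv, h3, invRev_append]
  unfold H
  rw [h1, h2, h3, e1, e2, e3]
  have a1 := N_append_ge hc u p
  have a2 := N_append_le hc u p
  have a3 := N_append_ge hc (invRev p) v
  have a4 := N_append_le hc (invRev p) v
  have a5 := N_append_ge hc u v
  have a6 := N_append_le hc u v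
  have a7 := N_append_ge hc (invRev p) (invRev u)
  have a8 := N_append_le hc (invRev p) (invRev u)
  have a9 := N_append_ge hc (invRev v) p
  have b1 := N_append_le hc (invRev v) p
  have b2 := N_append_ge hc (invRev v) (invRev u)
  have b3 := N_append_le hc (invRev v) (invRev u)
  rw [abs_le]
  constructor <;> omega

theorem H_com (hc : c ≠ []) (g h : FreeGroup κ) : |H c ⁅g, h⁆| ≤ 9 := by
  have h1 := H_mul hc (g * h * g⁻¹) h⁻¹
  have h2 := H_mul hc (g * h) g⁻¹
  have h3 := H_mul hc g h
  rw [H_inv] at h1 h2
  rw [commutatorElement_def]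
  rw [abs_le] at *
  constructor <;> omega

/-- the value at a power of a cyclically reduced word -/
theorem H_pow (hc : c ≠ []) (hr : IsCyclicallyReduced c) (k : ℕ) :
    (k : ℤ) ≤ H c (mk c ^ k) := by
  have hw : (mk c ^ k : FreeGroup κ).toWord = (List.replicate k c).flatten := by
    rw [toWord_pow, toWord_mk, hr.isReduced.reduce_eq]
    exact (hr.flatten_replicate k).isReduced.reduce_eq
  have h0 : N c (mk c ^ k : FreeGroup κ)⁻¹.toWord = 0 := by
    by_contra hne
    obtain ⟨u, v, huv⟩ := (N_spec c (mk c ^ k : FreeGroup κ)⁻¹.toWord).occ hne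
    have : (mk c ^ k : FreeGroup κ)⁻¹.toWord = (List.replicate k (invRev c)).flatten := by
      rw [toWord_inv, hw]
      clear hw huv hne
      induction k with
      | zero => simp
      | succ k ih =>
        rw [List.replicate_succ', List.replicate_succ, List.flatten_append, List.flatten_cons,
          invRev_append, ih]
        simp
    rw [this] at huv
    obtain ⟨x, y, h1, h2⟩ := occ_replicate (by simp) k u v huv
    -- `c⁻¹ = x y`, `c = y x`
    rw [h2, invRev_append] at h1
    obtain ⟨h3, h4⟩ := List.append_inj h1 (by simp)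
    have key : ∀ z : List (κ × Bool), IsReduced z → invRev z = z → z = [] := by
      intro z hz hz'
      have h5 : (mk z : FreeGroup κ)⁻¹ = mk z := by rw [inv_mk, hz']
      have h6 : (mk z : FreeGroup κ) ^ 2 = 1 ^ 2 := by
        rw [one_pow, pow_two]
        nth_rw 1 [← h5]
        exact inv_mul_cancel _
      have h7 : (mk z : FreeGroup κ) = 1 := pow_left_injective (by norm_num : (2 : ℕ) ≠ 0) h6
      have h8 := congrArg toWord h7
      rw [toWord_mk, hz.reduce_eq, toWord_one] at h8
      exact h8
    have hx : x = [] := key x (red_mid hr.isReduced y x [] (by simp [h2])) h3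
    have hy : y = [] := key y (red_mid hr.isReduced [] y x (by simp [h2])) h4
    apply hc
    rw [h2, hx, hy]
    rfl
  unfold H
  rw [h0, hw]
  have := N_replicate hc k
  push_cast
  omega

end H

/-- a product of a commutator and a proper 24-th power is no commutator -/
theorem pow_com (A B C A' B' : FreeGroup κ) (h : ⁅A, B⁆ * C ^ 24 = ⁅A', B'⁆) : C = 1 := by
  by_contra hC
  obtain ⟨L, hL⟩ : ∃ L, L = C.toWord := ⟨_, rfl⟩
  obtain ⟨c, hc⟩ : ∃ c, c = reduceCyclically L := ⟨_, rfl⟩
  obtain ⟨g, hg⟩ : ∃ g : FreeGroup κ, g = mk (reduceCyclically.conjugator L) := ⟨_, rfl⟩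
  have hcyc : IsCyclicallyReduced c := by
    rw [hc, hL]; exact reduceCyclically.isCyclicallyReduced isReduced_toWord
  have hconj : C = g * mk c * g⁻¹ := by
    rw [hg, hc, inv_mk, mul_mk, mul_mk, reduceCyclically.conj_conjugator_reduceCyclically, hL,
      mk_toWord]
  have hne : c ≠ [] := by
    intro h0
    apply hC
    rw [hconj, h0, ← one_eq_mk]
    simp
  have hmain : ⁅g⁻¹ * A * g, g⁻¹ * B * g⁆ * mk c ^ 24 = ⁅g⁻¹ * A' * g, g⁻¹ * B' * g⁆ := by
    have e1 : ∀ X Y : FreeGroup κ, ⁅g⁻¹ * X * g, g⁻¹ * Y * g⁆ = g⁻¹ * ⁅X, Y⁆ * g := by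
      intro X Y
      simp only [commutatorElement_def]
      group
    have e2 : mk c ^ 24 = g⁻¹ * C ^ 24 * g := by
      rw [hconj, conj_pow]
      group
    rw [e1, e1, e2, ← h]
    group
  have h1 := H_com hne (g⁻¹ * A * g) (g⁻¹ * B * g)
  have h2 := H_com hne (g⁻¹ * A' * g) (g⁻¹ * B' * g)
  have h3 := H_mul hne ⁅g⁻¹ * A * g, g⁻¹ * B * g⁆ (mk c ^ 24)
  have h4 := H_pow hne hcyc 24
  rw [hmain] at h3
  rw [abs_le] at *
  push_cast at h4
  omega

end Pool.Agent.H54.CF
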