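import Mathlib
import Pool.Agent.H84.Free

/-!
# The equation `[A, B] = [a, b]` in the free group on `a, b`

`com_auto`: if `[A, B] = [a, b]`, then `a ↦ A`, `b ↦ B` defines an automorphism.
(1) `A, B` generate: let `H = ⟨A, B⟩`, `M` the functions on the coset space `G ⧸ H`; for a derivation
`D : G → M` the value of `D` at the base point is a homomorphism on `H`, so `D [A, B]` vanishes there;
`D a` and `D b` can be prescribed, and this gives `a ∈ H` and then `b ∈ H`.
(2) finitely generated residually finite groups are Hopfian.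
-/

set_option autoImplicit false

open scoped commutatorElement

namespace Pool.Agent.H54.CF

section derivation

variable {G X : Type} [Group G] [MulAction G X]

/-- the linear action on functions -/
private def L (g : G) (m : X → ℤ) : X → ℤ := fun x => m (g⁻¹ • x)

private theorem L_mul (g h : G) (m : X → ℤ) : L (g * h) m = L g (L h m) := by
  funext x
  simp [L, mul_smul]

private theorem L_one (m : X → ℤ) : L (1 : G) m = m := by
  funext x
  simp [L]

private theorem L_add (g : G) (m n : X → ℤ) : L g (m + n) = L g m + L g n := by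
  funext x
  simp [L]

private theorem L_inv_L (g : G) (m : X → ℤ) : L g⁻¹ (L g m) = m := by
  rw [← L_mul, inv_mul_cancel, L_one]

private theorem L_L_inv (g : G) (m : X → ℤ) : L g (L g⁻¹ m) = m := by
  rw [← L_mul, mul_inv_cancel, L_one]

/-- the affine map `m ↦ g m + d` -/
private def aff (g : G) (d : X → ℤ) : Equiv.Perm (X → ℤ) where
  toFun m := L g m + d
  invFun m := L g⁻¹ (m - d)
  left_inv m := by
    simp only [add_sub_cancel_right]
    exact L_inv_L g m
  right_inv m := by
    simp only [L_L_inv]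
    simp

end derivation

section free

variable {ι X : Type} [MulAction (FreeGroup ι) X]

/-- every function `ι → M` extends to a derivation -/
theorem exists_der (d : ι → X → ℤ) : ∃ D : FreeGroup ι → X → ℤ,
    (∀ i, D (FreeGroup.of i) = d i) ∧ ∀ g h x, D (g * h) x = D h (g⁻¹ • x) + D g x := by
  let Θ : FreeGroup ι →* Equiv.Perm (X → ℤ) := FreeGroup.lift fun i => aff (FreeGroup.of i) (d i)
  have key : ∀ g : FreeGroup ι, ∀ m, Θ g m = L g m + Θ g 0 := by
    have hinv : ∀ g : FreeGroup ι, (∀ m, Θ g m = L g m + Θ g 0) →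
        ∀ m, Θ g⁻¹ m = L g⁻¹ m + Θ g⁻¹ 0 := by
      intro g hg m
      have h1 : ∀ m, Θ g⁻¹ m = L g⁻¹ (m - Θ g 0) := by
        intro m
        rw [map_inv, Equiv.Perm.inv_eq_iff_eq, hg, L_L_inv]
        simp
      rw [h1, h1 0]
      funext x
      simp [L]
      ring
    intro g
    induction g using FreeGroup.induction_on with
    | C1 => intro m; simp [L_one]
    | of i =>
      intro m
      have : ∀ m, Θ (FreeGroup.of i) m = L (FreeGroup.of i) m + d i := by
        intro m
        simp only [Θ, FreeGroup.lift_apply_of]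
        rfl
      rw [this, this 0]
      funext x
      simp [L]
    | inv_of i hi => exact hinv _ hi
    | mul g h hg hh =>
      intro m
      rw [map_mul, Equiv.Perm.mul_apply, Equiv.Perm.mul_apply, hg, hh, hg (Θ h 0), L_mul, L_add]
      rw [add_assoc]
  refine ⟨fun g => Θ g 0, fun i => ?_, fun g h x => ?_⟩
  · simp only [Θ, FreeGroup.lift_apply_of]
    funext x
    simp [aff, L]
  · simp only
    rw [map_mul, Equiv.Perm.mul_apply, key]
    rfl

end free

/-- if `[A, B] = [a, b]`, then `A, B` generate the free group on `a, b` -/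
theorem com_gen (A B : FreeGroup (Fin 2))
    (h : ⁅A, B⁆ = ⁅FreeGroup.of (0 : Fin 2), FreeGroup.of (1 : Fin 2)⁆) :
    Subgroup.closure {A, B} = ⊤ := by
  classical
  obtain ⟨H, hH⟩ : ∃ H, H = Subgroup.closure {A, B} := ⟨_, rfl⟩
  rw [← hH]
  have hA : A ∈ H := hH ▸ Subgroup.subset_closure (by simp)
  have hB : B ∈ H := hH ▸ Subgroup.subset_closure (by simp)
  obtain ⟨a, ha⟩ : ∃ a : FreeGroup (Fin 2), a = FreeGroup.of 0 := ⟨_, rfl⟩
  obtain ⟨b, hb⟩ : ∃ b : FreeGroup (Fin 2), b = FreeGroup.of 1 := ⟨_, rfl⟩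
  rw [← ha, ← hb] at h
  obtain ⟨x0, hx0⟩ : ∃ x0 : FreeGroup (Fin 2) ⧸ H, x0 = ((1 : FreeGroup (Fin 2)) : _ ⧸ H) := ⟨_, rfl⟩
  have hfix : ∀ g : FreeGroup (Fin 2), g • x0 = x0 ↔ g ∈ H := by
    intro g
    rw [hx0, show g • ((1 : FreeGroup (Fin 2)) : FreeGroup (Fin 2) ⧸ H) =
      ((g * 1 : FreeGroup (Fin 2)) : FreeGroup (Fin 2) ⧸ H) from rfl, mul_one,
      eq_comm, QuotientGroup.eq]
    simp
  -- the consequence for derivations
  have key : ∀ d : Fin 2 → FreeGroup (Fin 2) ⧸ H → ℤ,
      d 0 x0 + d 1 (a⁻¹ • x0) = d 0 ((a * b * a⁻¹)⁻¹ • x0) + d 1 x0 := by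
    intro d
    obtain ⟨D, hD, hmul⟩ := exists_der d
    have hone : ∀ x, D 1 x = 0 := by
      intro x
      have := hmul 1 1 x
      simp at this
      exact this
    have hinv : ∀ g x, D g⁻¹ x = - D g (g • x) := by
      intro g x
      have := hmul g⁻¹ g x
      rw [inv_mul_cancel, hone, inv_inv] at this
      linarith
    have hAB : D ⁅A, B⁆ x0 = 0 := by
      have hAx : A • x0 = x0 := (hfix A).2 hA
      have hBx : B • x0 = x0 := (hfix B).2 hB
      have hAx' : A⁻¹ • x0 = x0 := (hfix _).2 (H.inv_mem hA)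
      have hBx' : B⁻¹ • x0 = x0 := (hfix _).2 (H.inv_mem hB)
      rw [commutatorElement_def, mul_assoc, mul_assoc, hmul A, hAx', hmul B, hBx', hmul A⁻¹,
        hinv B, hinv A, inv_inv, hAx, hBx]
      ring
    rw [h] at hAB
    have hmem : ⁅a, b⁆ ∈ H := by
      rw [← h, commutatorElement_def]
      exact H.mul_mem (H.mul_mem (H.mul_mem hA hB) (H.inv_mem hA)) (H.inv_mem hB)
    have hfx : ⁅a, b⁆⁻¹ • x0 = x0 := (hfix _).2 (H.inv_mem hmem)
    rw [commutatorElement_def, mul_assoc, mul_assoc, hmul a, hmul b, hmul a⁻¹, hinv b, hinv a,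
      inv_inv] at hAB
    rw [ha, hb, hD, hD, ← ha, ← hb] at hAB
    have e1 : a • b⁻¹ • a⁻¹ • x0 = (a * b * a⁻¹)⁻¹ • x0 := by
      rw [← mul_smul, ← mul_smul]
      congr 1
      group
    have e2 : b • a • b⁻¹ • a⁻¹ • x0 = x0 := by
      have : b * a * b⁻¹ * a⁻¹ = ⁅a, b⁆⁻¹ := by
        rw [commutatorElement_def]; group
      rw [← this] at hfx
      rw [← mul_smul, ← mul_smul, ← mul_smul]
      simpa only [mul_assoc] using hfx
    rw [e2, e1] at hAB
    linarith
  have ha' : a ∈ H := by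
    have := key (fun i => if i = 1 then (fun x => if x = x0 then 1 else 0) else 0)
    simp only [Fin.isValue, zero_ne_one, ↓reduceIte, Pi.zero_apply, zero_add] at this
    by_cases h0 : a⁻¹ • x0 = x0
    · have := H.inv_mem ((hfix _).1 h0)
      simpa using this
    · rw [if_neg h0] at this
      omega
  have hb' : b ∈ H := by
    have := key (fun i => if i = 0 then (fun x => if x = x0 then 1 else 0) else 0)
    simp only [Fin.isValue, one_ne_zero, ↓reduceIte, Pi.zero_apply, add_zero] at this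
    by_cases h0 : (a * b * a⁻¹)⁻¹ • x0 = x0
    · have h1 : a * b * a⁻¹ ∈ H := by
        have := H.inv_mem ((hfix _).1 h0)
        simpa using this
      have h2 := H.mul_mem (H.mul_mem (H.inv_mem ha') h1) ha'
      have h3 : a⁻¹ * (a * b * a⁻¹) * a = b := by group
      rwa [h3] at h2
    · rw [if_neg h0] at this
      omega
  rw [eq_top_iff, ← FreeGroup.closure_range_of, Subgroup.closure_le]
  rintro _ ⟨i, rfl⟩
  fin_cases i
  · rw [ha] at ha'; exact ha'
  · rw [hb] at hb'; exact hb'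

/-- residual finiteness of the free group of rank two -/
theorem free_rf (g : FreeGroup (Fin 2)) (hg : g ≠ 1) :
    ∃ (Q : Type) (_ : Group Q) (_ : Finite Q) (ρ : FreeGroup (Fin 2) →* Q), ρ g ≠ 1 := by
  have hinj := Pool.Agent.H84.lift_gen_injective (fun i : Fin 2 => i.val) Fin.val_injective
  obtain ⟨σ, hσ⟩ : ∃ σ, σ = FreeGroup.lift (fun i : Fin 2 => Pool.Agent.H84.gen i.val) := ⟨_, rfl⟩
  rw [← hσ] at hinj
  have h1 : σ g ≠ 1 := fun h => hg (hinj (by rw [h, map_one]))
  obtain ⟨i, j, hij⟩ : ∃ i j, (σ g) i j ≠ (1 : Pool.Agent.H84.SL2) i j := by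
    by_contra hc
    push Not at hc
    exact h1 (Matrix.SpecialLinearGroup.ext _ _ hc)
  obtain ⟨m, hm⟩ : ∃ m : ℕ, m = ((σ g) i j - (1 : Pool.Agent.H84.SL2) i j).natAbs + 1 := ⟨_, rfl⟩
  have : NeZero m := ⟨by omega⟩
  refine ⟨Matrix.SpecialLinearGroup (Fin 2) (ZMod m), inferInstance, ?_,
    (Matrix.SpecialLinearGroup.map (Int.castRingHom (ZMod m))).comp σ, ?_⟩
  · exact Subtype.finite
  · intro h2
    have h4 : (((σ g) i j : ℤ) : ZMod m) = (((1 : Pool.Agent.H84.SL2) i j : ℤ) : ZMod m) := by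
      rw [← map_one (Matrix.SpecialLinearGroup.map (Int.castRingHom (ZMod m)))] at h2
      exact congrArg (fun M : Matrix.SpecialLinearGroup (Fin 2) (ZMod m) => M i j) h2
    rw [← sub_eq_zero, ← Int.cast_sub, ZMod.intCast_zmod_eq_zero_iff_dvd] at h4
    have h5 : (σ g) i j - (1 : Pool.Agent.H84.SL2) i j ≠ 0 := sub_ne_zero.2 hij
    have h6 := Int.le_of_dvd (by positivity) ((dvd_abs _ _).2 h4)
    rw [hm, Int.abs_eq_natAbs] at h6
    push_cast at h6
    omega

/-- the free group of rank two is Hopfian -/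
theorem hopf (φ : FreeGroup (Fin 2) →* FreeGroup (Fin 2)) (h : Function.Surjective φ) :
    Function.Injective φ := by
  rw [injective_iff_map_eq_one]
  intro g hg
  by_contra hne
  obtain ⟨Q, hQ, hfin, ρ, hρ⟩ := free_rf g hne
  have : Finite (FreeGroup (Fin 2) →* Q) := Finite.of_equiv (Fin 2 → Q) FreeGroup.lift
  have hi : Function.Injective (fun f : FreeGroup (Fin 2) →* Q => f.comp φ) := by
    intro f f' hff
    ext i
    obtain ⟨y, hy⟩ := h (FreeGroup.of i)
    have := congrArg (fun k : FreeGroup (Fin 2) →* Q => k y) hff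
    simp only [MonoidHom.comp_apply, hy] at this
    exact this
  obtain ⟨ρ', hρ'⟩ := (Finite.injective_iff_surjective.1 hi) ρ
  apply hρ
  rw [← hρ']
  simp [hg]

theorem com_auto (A B : FreeGroup (Fin 2))
    (h : ⁅A, B⁆ = ⁅FreeGroup.of (0 : Fin 2), FreeGroup.of (1 : Fin 2)⁆) :
    ∃ φ : FreeGroup (Fin 2) ≃* FreeGroup (Fin 2), φ (FreeGroup.of 0) = A ∧ φ (FreeGroup.of 1) = B := by
  obtain ⟨φ, hφ⟩ : ∃ φ : FreeGroup (Fin 2) →* FreeGroup (Fin 2), φ = FreeGroup.lift ![A, B] :=
    ⟨_, rfl⟩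
  have h0 : φ (FreeGroup.of 0) = A := by rw [hφ]; simp
  have h1 : φ (FreeGroup.of 1) = B := by rw [hφ]; simp
  have hs : Function.Surjective φ := by
    rw [← MonoidHom.range_eq_top, eq_top_iff, ← com_gen A B h, Subgroup.closure_le]
    rintro x hx
    rcases hx with rfl | hx
    · exact ⟨_, h0⟩
    · rw [Set.mem_singleton_iff] at hx
      subst hx
      exact ⟨_, h1⟩
  exact ⟨MulEquiv.ofBijective φ ⟨hopf φ hs, hs⟩, h0, h1⟩

end Pool.Agent.H54.CF
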