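import Pool.Agent.H54.DF.Defs

/-!
# MP_82d1fc_lc: values of words without constants
-/

set_option autoImplicit false

namespace Pool.Agent.H54.CF

open Pool.Agent.H54.DF

/-- A word in the variables `x_0, x_1, ...` only: `(n, true)` is `x_n` and `(n, false)` is
`x_n⁻¹`. -/
abbrev VW : Type := List (ℕ × Bool)

/-- The commutator `a b a⁻¹ b⁻¹` of two constants is a value of the word `u` in the free group
on `κ`. -/
def Val {κ : Type} (a b : κ) (u : VW) : Prop :=
  ∃ s : ℕ → FreeGroup κ, cv s u =
    FreeGroup.of a * FreeGroup.of b * (FreeGroup.of a)⁻¹ * (FreeGroup.of b)⁻¹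

/-- The word `d` in the constants is (as an element of the free group on `κ`) a value of the word
`u`. -/
def Sub (κ : Type) (I : VW × CW κ) : Prop :=
  ∃ s : ℕ → FreeGroup κ, cv s I.1 = cv FreeGroup.of I.2

end Pool.Agent.H54.CF
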