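import Mathlib

/-!
# Disjoint occurrences of a word in a word
-/

set_option autoImplicit false

namespace Pool.Agent.H54.CF

variable {α : Type}

/-- `Pk c m w`: the word `w` has `m` disjoint occurrences of the word `c` -/
inductive Pk (c : List α) : ℕ → List α → Prop
  | nil : Pk c 0 []
  | skip (x : α) {m : ℕ} {w : List α} : Pk c m w → Pk c m (x :: w)
  | hit {m : ℕ} {w : List α} : Pk c m w → Pk c (m + 1) (c ++ w)

theorem Pk.left {c : List α} {m : ℕ} {w : List α} (h : Pk c m w) (u : List α) :
    Pk c m (u ++ w) := by
  induction u with
  | nil => exact h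
  | cons x u ih => exact ih.skip x

theorem Pk.append {c : List α} {m m' : ℕ} {w w' : List α} (h : Pk c m w) (h' : Pk c m' w') :
    Pk c (m + m') (w ++ w') := by
  induction h with
  | nil => simpa using h'
  | skip x _ ih => exact ih.skip x
  | @hit m w _ ih =>
    rw [List.append_assoc, show m + 1 + m' = m + m' + 1 by omega]
    exact ih.hit

theorem Pk.split {c : List α} {m : ℕ} {x : List α} (h : Pk c m x) :
    ∀ w w', x = w ++ w' → ∃ m1 m2, m ≤ m1 + m2 + 1 ∧ Pk c m1 w ∧ Pk c m2 w' := by
  induction h with
  | nil =>
    intro w w' hw
    obtain ⟨rfl, rfl⟩ := List.append_eq_nil_iff.1 hw.symm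
    exact ⟨0, 0, by omega, Pk.nil, Pk.nil⟩
  | @skip x m v hv ih =>
    intro w w' hw
    cases w with
    | nil =>
      simp only [List.nil_append] at hw
      exact ⟨0, m, by omega, Pk.nil, hw ▸ hv.skip x⟩
    | cons y w1 =>
      simp only [List.cons_append, List.cons.injEq] at hw
      obtain ⟨rfl, rfl⟩ := hw
      obtain ⟨m1, m2, h1, h2, h3⟩ := ih w1 w' rfl
      exact ⟨m1, m2, h1, h2.skip _, h3⟩
  | @hit m v hv ih =>
    intro w w' hw
    rcases List.append_eq_append_iff.1 hw with ⟨t, rfl, rfl⟩ | ⟨t, rfl, rfl⟩
    · obtain ⟨m1, m2, h1, h2, h3⟩ := ih t w' rfl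
      exact ⟨m1 + 1, m2, by omega, h2.hit, h3⟩
    · refine ⟨0, m, by omega, ?_, hv.left t⟩
      have := (Pk.nil (c := w ++ t)).left w
      simpa using this

theorem Pk.len {c : List α} {m : ℕ} {w : List α} (h : Pk c m w) : m * c.length ≤ w.length := by
  induction h with
  | nil => simp
  | skip x _ ih => simp only [List.length_cons]; omega
  | hit _ ih => rw [add_mul, one_mul, List.length_append]; omega

theorem Pk.le {c : List α} (hc : c ≠ []) {m : ℕ} {w : List α} (h : Pk c m w) : m ≤ w.length := by
  have h1 := h.len
  have h2 : 0 < c.length := List.length_pos_iff.2 hc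
  nlinarith

theorem Pk.occ {c : List α} {m : ℕ} {w : List α} (h : Pk c m w) (hm : m ≠ 0) :
    ∃ u v, w = u ++ c ++ v := by
  induction h with
  | nil => exact absurd rfl hm
  | skip x _ ih =>
    obtain ⟨u, v, rfl⟩ := ih hm
    exact ⟨x :: u, v, rfl⟩
  | @hit m w _ _ => exact ⟨[], w, rfl⟩

open Classical in
/-- the maximal number of disjoint occurrences of `c` in `w` -/
noncomputable def N (c w : List α) : ℕ := Nat.findGreatest (fun m => Pk c m w) w.length

theorem N_spec (c w : List α) : Pk c (N c w) w := by
  classical
  have h0 : Pk c 0 w := by simpa using (Pk.nil (c := c)).left w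
  exact Nat.findGreatest_spec (P := fun m => Pk c m w) (Nat.zero_le _) h0

theorem le_N {c : List α} (hc : c ≠ []) {m : ℕ} {w : List α} (h : Pk c m w) : m ≤ N c w := by
  classical
  exact Nat.le_findGreatest (P := fun m => Pk c m w) (h.le hc) h

theorem N_append_ge {c : List α} (hc : c ≠ []) (w w' : List α) :
    N c w + N c w' ≤ N c (w ++ w') := le_N hc ((N_spec c w).append (N_spec c w'))

theorem N_append_le {c : List α} (hc : c ≠ []) (w w' : List α) :
    N c (w ++ w') ≤ N c w + N c w' + 1 := by
  obtain ⟨m1, m2, h1, h2, h3⟩ := (N_spec c (w ++ w')).split w w' rfl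
  have := le_N hc h2
  have := le_N hc h3
  omega

/-- powers contain many occurrences -/
theorem N_replicate {c : List α} (hc : c ≠ []) (k : ℕ) :
    k ≤ N c (List.replicate k c).flatten := by
  refine le_N hc ?_
  induction k with
  | zero => simpa using Pk.nil
  | succ k ih =>
    rw [List.replicate_succ, List.flatten_cons]
    exact ih.hit

/-- an occurrence of a word of length `n` in a power of a word `d` of length `n` is a rotation -/
theorem occ_replicate {c d : List α} (hl : c.length = d.length) (k : ℕ) (u v : List α)
    (h : (List.replicate k d).flatten = u ++ c ++ v) : ∃ x y, d = x ++ y ∧ c = y ++ x := by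
  induction k generalizing u with
  | zero =>
    simp only [List.replicate_zero, List.flatten_nil] at h
    have : c = [] := by
      have := congrArg List.length h
      simp only [List.length_nil, List.length_append] at this
      exact List.length_eq_zero_iff.1 (by omega)
    subst this
    have : d = [] := List.length_eq_zero_iff.1 (by simpa using hl.symm)
    subst this
    exact ⟨[], [], rfl, rfl⟩
  | succ k ih =>
    rw [List.replicate_succ, List.flatten_cons, List.append_assoc] at h
    rcases List.append_eq_append_iff.1 h with ⟨t, rfl, ht⟩ | ⟨t, rfl, ht⟩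
    · exact ih t (by rw [ht, List.append_assoc])
    · -- `d = u ++ t`, `c ++ v = t ++ d ^ k`
      have hlt : t.length ≤ c.length := by
        rw [hl, List.length_append]; omega
      obtain ⟨s, hs⟩ : ∃ s, c = t ++ s := by
        rcases List.append_eq_append_iff.1 ht with ⟨r, hr, _⟩ | ⟨r, hr, _⟩
        · -- `t = c ++ r`
          refine ⟨[], ?_⟩
          have : r = [] := by
            have := congrArg List.length hr
            simp only [List.length_append] at this
            exact List.length_eq_zero_iff.1 (by omega)
          simpa [this] using hr.symm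
        · exact ⟨r, hr⟩
      subst hs
      rw [List.append_assoc, List.append_cancel_left_eq] at ht
      have hsl : s.length = u.length := by
        simp only [List.length_append] at hl
        omega
      cases k with
      | zero =>
        simp only [List.replicate_zero, List.flatten_nil, List.append_eq_nil_iff] at ht
        have hs : s = [] := ht.1
        have hu : u = [] := List.length_eq_zero_iff.1 (by rw [← hsl, hs]; rfl)
        exact ⟨[], t, by simp [hu], by simp [hs]⟩
      | succ k =>
        rw [List.replicate_succ, List.flatten_cons, List.append_assoc] at ht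
        have := (List.append_inj ht hsl).1
        exact ⟨u, t, rfl, by rw [this]⟩

end Pool.Agent.H54.CF
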