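import Pool.Agent.H54.CF.Defs
import Pool.Agent.H54.CF.Com
import Pool.Agent.H54.CF.Bro
import Pool.Agent.H54.DF.Main

/-!
# Elimination of the constants
-/

set_option autoImplicit false

open scoped commutatorElement

namespace Pool.Agent.H54.CF

open Pool.Agent.H54.DF Pool.Agent.H80.Poly Pool.Agent.H72.NP

/-- the letter without constants: `x_n` becomes `x_(n+2)` and the constant `i` becomes `x_i` -/
def nl (l : Lt (Fin 2)) : ℕ × Bool := (Sum.elim (fun n => n + 2) (fun i => i.val) l.1, l.2)

/-- the word `[x_0, x_1] w ^ 24`, where the constants in `w` are replaced by `x_0`, `x_1` -/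
def nc (w : Wd (Fin 2)) : VW :=
  [(0, true), (1, true), (0, false), (1, false)] ++ (List.replicate 24 (w.map nl)).flatten

theorem cv_map_nl {G : Type} [Group G] (s : ℕ → G) (w : Wd (Fin 2)) :
    cv s (w.map nl) = ev (fun i => s i.val) (fun n => s (n + 2)) w := by
  unfold cv ev
  rw [List.map_map]
  congr 1
  refine List.map_congr_left fun l _ => ?_
  obtain ⟨g, b⟩ := l
  rcases g with g | g <;> rfl

theorem cv_pow {G : Type} [Group G] (s : ℕ → G) (u : VW) (k : ℕ) :
    cv s (List.replicate k u).flatten = cv s u ^ k := by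
  induction k with
  | zero => simp [cv_nil]
  | succ k ih => rw [List.replicate_succ, List.flatten_cons, cv_append, ih, pow_succ']

theorem cv_nc {G : Type} [Group G] (s : ℕ → G) (w : Wd (Fin 2)) :
    cv s (nc w) = ⁅s 0, s 1⁆ * (ev (fun i => s i.val) (fun n => s (n + 2)) w) ^ 24 := by
  rw [nc, cv_append, cv_pow, cv_map_nl, commutatorElement_def]
  simp [cv, mul_assoc]

theorem val_nc (w : Wd (Fin 2)) : DP (Fin 2) w ↔ Val (0 : Fin 2) 1 (nc w) := by
  constructor
  · rintro ⟨s, hs⟩
    refine ⟨fun n => if n = 0 then FreeGroup.of 0 else if n = 1 then FreeGroup.of 1 else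
      s (n - 2), ?_⟩
    rw [cv_nc]
    have e : ev (fun i : Fin 2 => (fun n => if n = 0 then FreeGroup.of 0 else
        if n = 1 then FreeGroup.of 1 else s (n - 2) : ℕ → FreeGroup (Fin 2)) i.val)
        (fun n => (fun n => if n = 0 then FreeGroup.of 0 else
        if n = 1 then FreeGroup.of 1 else s (n - 2) : ℕ → FreeGroup (Fin 2)) (n + 2)) w =
        ev FreeGroup.of s w := by
      congr 1
      funext i
      fin_cases i <;> simp
    rw [e, hs]
    simp [commutatorElement_def]
  · rintro ⟨s, hs⟩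
    rw [cv_nc, ← commutatorElement_def] at hs
    have h1 := pow_com _ _ _ _ _ hs
    rw [h1, one_pow, mul_one] at hs
    obtain ⟨φ, h2, h3⟩ := com_auto _ _ hs
    refine ⟨fun n => φ.symm (s (n + 2)), ?_⟩
    have h4 := map_ev (fun i : Fin 2 => s i.val) (fun n => s (n + 2)) φ.symm.toMonoidHom w
    rw [h1, map_one] at h4
    rw [h4]
    congr 1
    funext i
    fin_cases i
    · show FreeGroup.of 0 = φ.symm (s 0)
      rw [← h2, MulEquiv.symm_apply_apply]
    · show FreeGroup.of 1 = φ.symm (s 1)
      rw [← h3, MulEquiv.symm_apply_apply]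

/-- the property does not depend on the group -/
theorem val_iff {κ : Type} [DecidableEq κ] {a b : κ} (hab : a ≠ b) (u : VW) :
    Val a b u ↔ Val (0 : Fin 2) 1 u := by
  constructor
  · rintro ⟨s, hs⟩
    let f : FreeGroup κ →* FreeGroup (Fin 2) :=
      FreeGroup.lift fun k => if k = a then FreeGroup.of 0 else FreeGroup.of 1
    refine ⟨fun n => f (s n), ?_⟩
    have h := map_cv s f u
    rw [← h, hs]
    simp [f, hab.symm]
  · rintro ⟨s, hs⟩
    let f : FreeGroup (Fin 2) →* FreeGroup κ :=
      FreeGroup.lift fun k => if k = 0 then FreeGroup.of a else FreeGroup.of b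
    refine ⟨fun n => f (s n), ?_⟩
    have h := map_cv s f u
    rw [← h, hs]
    simp [f]

private theorem pt_nl : PolyTime nl := by
  have h1 : PolyTime (fun x : (ℕ ⊕ Fin 2) × Unit =>
      Sum.elim (fun b => (fun z : ℕ × Unit => z.1 + 2) (b, x.2))
        (fun c => (fun z : Fin 2 × Unit => z.1.val) (c, x.2)) x.1) :=
    PolyTime.sumCase (PolyTime.fst'.add (PolyTime.const 2)) PolyTime.fst'.finVal
  have h2 : PolyTime (fun l : Lt (Fin 2) => (l.1, ())) := PolyTime.fst'.pair (PolyTime.const ())
  exact ((PolyTime.comp h1 h2).pair PolyTime.snd').congr fun l => by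
    obtain ⟨g, b⟩ := l
    rcases g with g | g <;> rfl

theorem pt_nc : PolyTime nc := by
  have h1 : PolyTime (fun w : Wd (Fin 2) => w.map nl) :=
    PolyTime.map (l := fun w : Wd (Fin 2) => w) (g := fun z : Wd (Fin 2) × Lt (Fin 2) => nl z.2)
      PolyTime.id (PolyTime.comp pt_nl PolyTime.snd')
  have h2 : ∀ k, PolyTime (fun w : Wd (Fin 2) => (List.replicate k (w.map nl)).flatten) := by
    intro k
    induction k with
    | zero => exact (PolyTime.const []).congr fun w => by simp
    | succ k ih =>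
      exact (h1.append ih).congr fun w => by rw [List.replicate_succ, List.flatten_cons]
  exact (PolyTime.const _).append (h2 24)

theorem red_val {r : ℕ} {a b : Fin r} (hab : a ≠ b) : PRed (DP (Fin 2)) (Val a b) :=
  ⟨nc, pt_nc, fun w => (val_nc w).trans (val_iff hab _).symm⟩

/-- the pair of the word and the commutator -/
theorem red_sub {r : ℕ} (a b : Fin r) : PRed (Val a b) (Sub (Fin r)) := by
  refine ⟨fun u => (u, [(a, true), (b, true), (a, false), (b, false)]),
    PolyTime.id.pair (PolyTime.const _), fun u => ?_⟩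
  unfold Val Sub
  refine exists_congr fun s => ?_
  simp only [cv, List.map_cons, List.map_nil, List.prod_cons, List.prod_nil, cond_true, cond_false,
    mul_one, mul_assoc]

theorem red_eq {r : ℕ} : PRed (Sub (Fin r)) (DP (Fin r)) := by
  refine ⟨fun I => I.1.map (fun l => ((Sum.inl l.1 : ℕ ⊕ Fin r), l.2)) ++ iw (cw I.2), ?_,
    fun I => ?_⟩
  · have h1 : PolyTime (fun z : VW × CW (Fin r) =>
        z.1.map (fun l => ((Sum.inl l.1 : ℕ ⊕ Fin r), l.2))) :=
      PolyTime.map (l := fun z : VW × CW (Fin r) => z.1)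
        (g := fun z : (VW × CW (Fin r)) × (ℕ × Bool) => ((Sum.inl z.2.1 : ℕ ⊕ Fin r), z.2.2))
        PolyTime.fst' ((PolyTime.comp (g := fun b : ℕ => (Sum.inl b : ℕ ⊕ Fin r)) PolyTime.inl'
          PolyTime.snd'.fst).pair PolyTime.snd'.snd)
    have h2 : PolyTime (fun z : VW × CW (Fin r) => cw z.2) :=
      PolyTime.map (l := fun z : VW × CW (Fin r) => z.2)
        (g := fun z : (VW × CW (Fin r)) × (Fin r × Bool) => ((Sum.inr z.2.1 : ℕ ⊕ Fin r), z.2.2))
        PolyTime.snd' ((PolyTime.comp (g := fun b : Fin r => (Sum.inr b : ℕ ⊕ Fin r)) PolyTime.inr'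
          PolyTime.snd'.fst).pair PolyTime.snd'.snd)
    have h3 : PolyTime (fun z : VW × CW (Fin r) => iw (cw z.2)) :=
      (PolyTime.map (l := fun z : VW × CW (Fin r) => cw z.2)
        (g := fun z : (VW × CW (Fin r)) × Lt (Fin r) => (z.2.1, !z.2.2)) h2
        (PolyTime.snd'.fst.pair (PolyTime.not PolyTime.snd'.snd))).reverse
    exact h1.append h3
  · unfold Sub DP
    refine exists_congr fun s => ?_
    rw [ev_append, ev_iw, ev_cw, mul_inv_eq_one]
    have : ev FreeGroup.of s (I.1.map (fun l => ((Sum.inl l.1 : ℕ ⊕ Fin r), l.2))) = cv s I.1 := by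
      unfold ev cv
      rw [List.map_map]
      rfl
    rw [this]

end Pool.Agent.H54.CF
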